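import Pool.Agent.Helper1.RK.StB

/-!
# Project RK (MP_de00bc_nt), module CN4
-/

set_option autoImplicit false

namespace Pool.Agent.Helper39.RK

open Pool.Agent.Helper1.RK

theorem pCN4 (h1 : StNI) (h2 : StGDC) (h3 : StBAD) (h4 : StINQ) (h5 : StIOT) (h6 : StDGM) :
    StCN4 := by
  intro L _ _ _ r dl lam u0 D0 hr hc0
  obtain ⟨ι, hι⟩ := (h5 L).1
  obtain ⟨ψ, D, hψ, hc, hno⟩ := h1 L ι hι r dl lam u0 D0 hc0
  choose φ U h hg using h2 L ι hι r dl lam (fun i => ψ (u0 i)) D hc
  have hcst : ∀ (φ : RatFunc L →ₐ[L] RatFunc L) g, Cst (φ g) ↔ Cst g :=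
    fun φ => ((h5 L).2.2.2.2.2 φ).2
  have bad : ∀ k, ∃ τ, BadP (h k) τ ∨ BadH (dl k) (lam k) (h k) (U k) τ := by
    intro k
    refine h3 L ι hι (dl k) (lam k) (U k) (h k) (hc.one k) ?_ (hg k).regInf (hg k).evenInf
    intro hU
    apply hc.nc k
    have h7 := (hcst (φ k) (U k)).2 hU
    rwa [(hg k).hu] at h7
  choose τ hτ using bad
  obtain ⟨A, G, i1, i2, i3, i4, i5⟩ := h4 L ι hι r dl lam (fun i => ψ (u0 i)) D (by omega) hc hno
    φ U h (fun k => {τ k}) (fun k => (hg k).gen.mem) (fun k => (hg k).hu) (fun k => (hg k).hh)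
    (fun k t ht => by
      rw [Finset.mem_singleton] at ht
      rw [ht]
      exact hτ k)
  have hX : ¬ Cst (RatFunc.X : RatFunc L) := by
    intro hX
    have h7 := ((h6 L).1 RatFunc.X).2 hX
    unfold dg at h7
    rw [RatFunc.num_X, RatFunc.denom_X, Polynomial.natDegree_X, Polynomial.natDegree_one] at h7
    omega
  have hμ : ∀ k, (1 : ℤ) ≤ (dg (φ k RatFunc.X) : ℤ) := by
    intro k
    have h8 : dg (φ k RatFunc.X) ≠ 0 := fun h7 =>
      hX ((hcst (φ k) RatFunc.X).1 (((h6 L).1 _).1 h7))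
    omega
  have hk : ∀ k, 4 * (dg (φ k RatFunc.X) : ℤ) ≤ 2 * (((r : ℤ) - 1) * A k + G k) := by
    intro k
    have a1 := i3 k
    rw [Finset.card_singleton, Nat.cast_one, one_mul] at a1
    have a2 := i2 k
    have a3 := hμ k
    have hA : 0 ≤ A k := by omega
    have hrA : 3 * A k ≤ ((r : ℤ) - 1) * A k := by
      apply mul_le_mul_of_nonneg_right _ hA
      omega
    rcases hτ k with hb | hb
    · have a4 := i4 k ⟨τ k, Finset.mem_singleton_self _, hb⟩
      linarith
    · have a5 := i5 k (fun t ht => by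
        rw [Finset.mem_singleton] at ht
        rw [ht]
        exact hb)
      rw [Finset.card_singleton, Nat.cast_one, one_mul] at a5
      linarith
  have hsum := Finset.sum_le_sum fun j (_ : j ∈ (Finset.univ : Finset (Fin r))) => i1 j
  have hsum2 := Finset.sum_le_sum fun j (_ : j ∈ (Finset.univ : Finset (Fin r))) => hk j
  have e1 : ∑ j : Fin r, (∑ k ∈ Finset.univ.erase j, A k + G j) =
      ∑ j : Fin r, (((r : ℤ) - 1) * A j + G j) := by
    rw [Finset.sum_add_distrib, Finset.sum_add_distrib]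
    congr 1
    have h7 : ∀ j ∈ (Finset.univ : Finset (Fin r)), ∑ k ∈ Finset.univ.erase j, A k =
        ∑ k, A k - A j := fun j hj => Finset.sum_erase_eq_sub hj
    rw [Finset.sum_congr rfl h7, Finset.sum_sub_distrib, Finset.sum_const, Finset.card_univ,
      Fintype.card_fin, nsmul_eq_mul, ← Finset.mul_sum]
    ring
  rw [e1, Finset.sum_sub_distrib, Finset.sum_const, Finset.card_univ, Fintype.card_fin,
    nsmul_eq_mul, ← Finset.mul_sum] at hsum
  rw [← Finset.mul_sum, ← Finset.mul_sum] at hsum2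
  have hr' : (4 : ℤ) ≤ r := by exact_mod_cast hr
  linarith

end Pool.Agent.Helper39.RK
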