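import Pool.Agent.Helper1.RK.StB

/-!
# Project RK (MP_de00bc_nt), module G4
-/

set_option autoImplicit false

namespace Pool.Agent.Helper39.RK

open Pool.Agent.Helper1.RK

theorem pG4 (h1 : StCON) (h2 : StVK) (h3 : StCN4) : StG4 := by
  intro L _ _ _ r dl lam u hr hcomm hone hzero hne hsq i
  by_contra hi
  have hl0 : lam i ≠ 0 := fun h => hone i (by rw [h, map_zero])
  have hl1 : lam i ≠ 1 := fun h => hone i (by rw [h, Derivation.map_one_eq_zero])
  by_cases hall : ∀ j, ¬ Cst (u j)
  · obtain ⟨D, hD⟩ := h2 L r dl lam u (by omega) hcomm hone hzero hall hsq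
    exact h3 L r dl lam u D hr hD
  · obtain ⟨j, hj⟩ := not_forall.1 hall
    obtain ⟨a, ha⟩ := not_not.1 hj
    have hb : leg (lam j) (u j) = RatFunc.C (a * (a - 1) * (a - lam j)) := by
      rw [ha]
      unfold leg
      rw [map_mul, map_mul, map_sub, map_sub, map_one]
    obtain ⟨c, hc⟩ := IsAlgClosed.exists_pow_nat_eq (a * (a - 1) * (a - lam j)) (n := 2)
      (by norm_num)
    rw [← hc] at hb
    have hc0 : (RatFunc.C c : RatFunc L) ≠ 0 := by
      intro h
      apply hne j
      rw [hb, map_pow, h]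
      ring
    obtain ⟨w, hw⟩ := hsq i j
    rw [hb, map_pow] at hw
    refine hi (h1 L (lam i) (u i) hl0 hl1 ⟨w / RatFunc.C c, ?_⟩ (hne i))
    rw [div_mul_div_comm, eq_div_iff (mul_ne_zero hc0 hc0), ← hw]
    ring

end Pool.Agent.Helper39.RK
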