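import Pool.Agent.Helper1.RK.StB

/-!
# Project RK (MP_de00bc_nt), module NI
-/

set_option autoImplicit false

namespace Pool.Agent.Helper39.RK

open Pool.Agent.Helper1.RK

theorem pNI (h1 : StREG) (h2 : StFIN) (h3 : StIOT) (h4 : StTRN) (h5 : StCMP) (h6 : StTRF) :
    StNI := by
  intro L _ _ _ ι hι r dl lam u D hc
  have hfin : (⋃ k : Fin r, {p : L | ¬ Reg p (D k RatFunc.X)}).Finite :=
    Set.finite_iUnion fun k => (h2 L).2.1 _
  obtain ⟨_, ⟨n, rfl⟩, hn⟩ :=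
    (Set.infinite_range_of_injective (Nat.cast_injective (R := L))).exists_notMem_finite hfin
  have hreg : ∀ k, Reg (n : L) (D k RatFunc.X) := by
    intro k
    by_contra hk
    exact hn (Set.mem_iUnion.2 ⟨k, hk⟩)
  obtain ⟨ψ, hψ⟩ := (h3 L).2.2.1 (n : L) 1 1 0 (by simp)
  have hX0 : (RatFunc.X : RatFunc L) ≠ 0 := RatFunc.X_ne_zero
  have hψX : ψ RatFunc.X = RatFunc.C (n : L) + RatFunc.X⁻¹ := by
    rw [hψ, map_one, map_zero, one_mul, add_zero, add_div, mul_div_cancel_right₀ _ hX0, one_div]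
  have hψC : ∀ a, ψ (RatFunc.C a) = RatFunc.C a :=
    ((h3 L).2.2.2.2.2 (ψ : RatFunc L →ₐ[L] RatFunc L)).1
  have hιC : ∀ a, ι (RatFunc.C a) = RatFunc.C a :=
    ((h3 L).2.2.2.2.2 (ι : RatFunc L →ₐ[L] RatFunc L)).1
  obtain ⟨D', hD', hc'⟩ := h6 L ψ r dl lam u D hc
  refine ⟨ψ, D', hD', hc', ?_⟩
  intro k
  have e1 : ψ ((RatFunc.X - RatFunc.C (n : L))⁻¹) = RatFunc.X := by
    rw [map_inv₀, map_sub, hψX, hψC, add_sub_cancel_left, inv_inv]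
  have e2 : D k (RatFunc.X - RatFunc.C (n : L)) = D k RatFunc.X := by
    rw [map_sub, hc.lift, Derivation.map_natCast, map_zero, sub_zero]
  have e3 : D' k RatFunc.X = -(RatFunc.X ^ 2 * ψ (D k RatFunc.X)) := by
    rw [← e1, hD', Derivation.leibniz_inv, e2, smul_eq_mul, map_mul, map_neg, map_pow, e1]
    ring
  have e4 : RatFunc.X ^ 2 * ι (D' k RatFunc.X) = -(ι (ψ (D k RatFunc.X))) := by
    rw [e3, map_neg, map_mul, map_pow, hι]
    field_simp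
  rw [e4]
  obtain ⟨φ, hφ⟩ : ∃ φ : RatFunc L →ₐ[L] RatFunc L, ∀ g, φ g = ι (ψ g) :=
    ⟨(ι : RatFunc L →ₐ[L] RatFunc L).comp (ψ : RatFunc L →ₐ[L] RatFunc L), fun _ => rfl⟩
  have e5 : φ RatFunc.X = RatFunc.C (n : L) + RatFunc.X := by
    rw [hφ, hψX, map_add, hιC, map_inv₀, hι, inv_inv]
  obtain ⟨r1, r2, r3, r4, r5, r6, r7, r8, r9⟩ := h1 L (0 : L)
  have e6 := r7 (RatFunc.C (n : L)) RatFunc.X (r5 (n : L)).1 r6.1
  have e7 := (h5 L 0 (n : L) φ (by rw [e5]; exact e6.1)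
    (by rw [e5, e6.2.1, (r5 (n : L)).2, r6.2, add_zero])).2.2.1 _ (hreg k)
  rw [← hφ]
  exact (r8 _ e7.1).1

end Pool.Agent.Helper39.RK
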