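import Pool.Agent.Helper1.RK.StB

/-!
# Project RK (MP_de00bc_nt), module TRF
-/

set_option autoImplicit false

namespace Pool.Agent.Helper39.RK

open Pool.Agent.Helper1.RK

theorem pTRF (h1 : StTRN) (h2 : StIOT) : StTRF := by
  intro L _ _ ψ r dl lam u D hc
  have hex : ∀ k, ∃ D' : Derivation ℤ (RatFunc L) (RatFunc L),
      Over (dl k) (ψ (D k (ψ.symm RatFunc.X))) D' ∧ ∀ g, D' (ψ g) = ψ (D k g) :=
    fun k => (h1 L (dl k)).2.1 ψ (D k RatFunc.X) (D k) ⟨hc.lift k, rfl⟩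
  choose D' hO hD' using hex
  have hC : (∀ a, ψ (RatFunc.C a) = RatFunc.C a) ∧ ∀ g, Cst (ψ g) ↔ Cst g :=
    (h2 L).2.2.2.2.2 (ψ : RatFunc L →ₐ[L] RatFunc L)
  have hleg : ∀ l v, leg l (ψ v) = ψ (leg l v) := by
    intro l v
    unfold leg
    rw [map_mul, map_mul, map_sub, map_sub, map_one, hC.1]
  refine ⟨D', hD', ⟨hc.comm, hc.one, hc.zero, fun k a => (hO k).1 a, ?_, ?_, ?_, ?_⟩⟩
  · intro k i hi
    change D' k (ψ (u i)) = 0
    rw [hD', hc.kill k i hi, map_zero]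
  · intro i h
    exact hc.nc i ((hC.2 _).1 h)
  · intro i j
    change IsSquare (leg (lam i) (ψ (u i)) * leg (lam j) (ψ (u j)))
    rw [hleg, hleg, ← map_mul]
    exact (hc.sq i j).map ψ
  · intro k l g
    obtain ⟨g', rfl⟩ := ψ.surjective g
    rw [hD', hD', hD', hD', hc.dcomm]

end Pool.Agent.Helper39.RK
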