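import Pool.Agent.Helper1.RK.StB

/-!
# Project RK (MP_de00bc_nt), module VK
-/

set_option autoImplicit false

namespace Pool.Agent.Helper39.RK

open Pool.Agent.Helper1.RK

theorem pVK (h1 : StDER) (h2 : StCL1) : StVK := by
  intro L _ _ _ r dl lam u hr hcomm hone hzero hnc hsq
  obtain ⟨d1, d2, d3, d4⟩ := h1 L
  have hl0 : ∀ i, lam i ≠ 0 := fun i h => hone i (by rw [h, map_zero])
  have hl1 : ∀ i, lam i ≠ 1 := fun i h => hone i (by rw [h, Derivation.map_one_eq_zero])
  have hleg : ∀ i, leg (lam i) (u i) ≠ 0 := by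
    intro i h
    unfold leg at h
    rcases mul_eq_zero.1 h with h | h
    · rcases mul_eq_zero.1 h with h | h
      · exact hnc i ⟨0, by rw [h, map_zero]⟩
      · exact hnc i ⟨1, by rw [sub_eq_zero.1 h, map_one]⟩
    · exact hnc i ⟨lam i, sub_eq_zero.1 h⟩
  choose Dc hDc using fun k => d1 (dl k) 0
  obtain ⟨Dt, hDt⟩ := d1 0 1
  have ht : ∀ i, Dt (u i) ≠ 0 := fun i h => hnc i ((d4 Dt hDt _).1 h)
  have key : ∀ k i j, i ≠ k → j ≠ k → Dc k (u i) * Dt (u j) = Dc k (u j) * Dt (u i) :=
    fun k i j hi hj => h2 L (dl k) (Dc k) Dt (lam i) (lam j) (u i) (u j) (hl0 i) (hl1 i) (hl0 j)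
      (hl1 j) (hzero k i (Ne.symm hi)) (hzero k j (Ne.symm hj)) (hDc k) hDt (hleg i) (hleg j)
      (hsq i j)
  have hex : ∀ k l : Fin r, ∃ i, i ≠ k ∧ i ≠ l := by
    intro k l
    have h : ({k, l} : Finset (Fin r)).card < (Finset.univ : Finset (Fin r)).card := by
      rw [Finset.card_univ, Fintype.card_fin]
      exact lt_of_le_of_lt Finset.card_le_two (by omega)
    obtain ⟨i, -, hi⟩ := Finset.exists_mem_notMem_of_card_lt_card h
    rw [Finset.mem_insert, Finset.mem_singleton, not_or] at hi
    exact ⟨i, hi.1, hi.2⟩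
  choose i0 hi0 hi0' using fun k => hex k k
  choose D hD using fun k => d1 (dl k) (-(Dc k (u (i0 k)) / Dt (u (i0 k))))
  have hform : ∀ k g, D k g = Dc k g + -(Dc k (u (i0 k)) / Dt (u (i0 k))) * Dt g :=
    fun k => d3 (dl k) _ (D k) (Dc k) Dt (hD k) (hDc k) hDt
  have hkill : ∀ k i, i ≠ k → D k (u i) = 0 := by
    intro k i hi
    rw [hform]
    have h := key k i (i0 k) hi (hi0 k)
    have h0 := ht (i0 k)
    have h3 : Dc k (u (i0 k)) / Dt (u (i0 k)) * Dt (u i) = Dc k (u i) := by
      rw [div_mul_eq_mul_div, div_eq_iff h0, h]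
    rw [neg_mul, h3, add_neg_cancel]
  refine ⟨D, ⟨hcomm, hone, hzero, fun k a => (hD k).1 a, hkill, hnc, hsq, ?_⟩⟩
  intro k l g
  obtain ⟨B, hBd⟩ : ∃ B : Derivation ℤ (RatFunc L) (RatFunc L),
      ∀ g, B g = D k (D l g) - D l (D k g) := by
    refine ⟨
      { toFun := fun g => D k (D l g) - D l (D k g)
        map_add' := fun a b => by
          simp only [map_add]
          ring
        map_smul' := fun m x => by
          have hz : ∀ (E : Derivation ℤ (RatFunc L) (RatFunc L)) (y : RatFunc L),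
              E ((m : RatFunc L) * y) = (m : RatFunc L) * E y := by
            intro E y
            rw [Derivation.leibniz, Derivation.map_intCast, smul_zero, add_zero, smul_eq_mul]
          rw [Algebra.smul_def, eq_intCast, RingHom.id_apply, zsmul_eq_mul]
          change D k (D l ((m : RatFunc L) * x)) - D l (D k ((m : RatFunc L) * x)) =
            (m : RatFunc L) * (D k (D l x) - D l (D k x))
          rw [hz (D l) x, hz (D k) x, hz (D k) (D l x), hz (D l) (D k x), mul_sub]
        map_one_eq_zero' := by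
          change D k (D l 1) - D l (D k 1) = 0
          rw [Derivation.map_one_eq_zero, Derivation.map_one_eq_zero, map_zero, map_zero, sub_zero]
        leibniz' := fun a b => by
          change D k (D l (a * b)) - D l (D k (a * b)) =
            a • (D k (D l b) - D l (D k b)) + b • (D k (D l a) - D l (D k a))
          simp only [Derivation.leibniz, map_add, smul_eq_mul]
          ring }, fun g => rfl⟩
  have hB : Over (0 : Derivation ℤ L L) (B RatFunc.X) B := by
    refine ⟨fun a => ?_, rfl⟩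
    rw [hBd, (hD l).1, (hD k).1, (hD k).1, (hD l).1, hcomm, sub_self]
    change 0 = RatFunc.C (0 : L)
    rw [map_zero]
  have h0 : Over (0 : Derivation ℤ L L) 0 (0 : Derivation ℤ (RatFunc L) (RatFunc L)) := by
    refine ⟨fun a => ?_, rfl⟩
    change 0 = RatFunc.C (0 : L)
    rw [map_zero]
  have hBg := d3 0 _ _ _ Dt hB h0 hDt
  obtain ⟨i, hik, hil⟩ := hex k l
  have hi := hBg (u i)
  rw [hBd, hkill l i hil, hkill k i hik, map_zero, map_zero, sub_zero] at hi
  have hX : B RatFunc.X = 0 := by
    have h3 : B RatFunc.X * Dt (u i) = 0 := by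
      rw [hi]
      change _ = 0 + _
      rw [zero_add]
    exact (mul_eq_zero.1 h3).resolve_right (ht i)
  have h4 := hBg g
  rw [hX, zero_mul, add_zero, hBd] at h4
  exact sub_eq_zero.1 h4

end Pool.Agent.Helper39.RK
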